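import Pool.Agent.R3M.Stmts

/-!
# R3M, row IRT: the irreducible case
-/

set_option autoImplicit false

namespace Pool.Agent.R3M.H18

open Pool.Agent.R3M

variable {α : Type} [DecidableEq α]

theorem near_exch' (I : Finset α) (e f : α) : Near I (insert e (I.erase f)) := by
  refine ⟨?_, ?_⟩
  · refine Finset.card_le_one.mpr (fun x hx y hy => ?_)
    rw [Finset.mem_sdiff, Finset.mem_insert, Finset.mem_erase] at hx hy
    have h1 : x = f := by
      by_contra hc
      exact hx.2 (Or.inr ⟨hc, hx.1⟩)
    have h2 : y = f := by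
      by_contra hc
      exact hy.2 (Or.inr ⟨hc, hy.1⟩)
    rw [h1, h2]
  · refine Finset.card_le_one.mpr (fun x hx y hy => ?_)
    rw [Finset.mem_sdiff, Finset.mem_insert, Finset.mem_erase] at hx hy
    have h1 : x = e := by
      rcases hx.1 with h | h
      · exact h
      · exact absurd h.2 hx.2
    have h2 : y = e := by
      rcases hy.1 with h | h
      · exact h
      · exact absurd h.2 hy.2
    rw [h1, h2]

theorem exch_ci {M N : Mat α} {n : ℕ} {I R : Finset α} {e f : α} (hI : CI M N n I)
    (h : Up M N R I e f) : CI M N n (insert e (I.erase f)) := by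
  refine ⟨h.2.2.2.2.1, h.2.2.2.2.2, ?_⟩
  rw [Finset.card_insert_of_notMem (fun hc => h.2.1 (Finset.mem_of_mem_erase hc)),
    Finset.card_erase_of_mem h.2.2.1, hI.2.2]
  have : 0 < I.card := Finset.card_pos.mpr ⟨f, h.2.2.1⟩
  rw [hI.2.2] at this
  omega

theorem level_same {I X : Finset α} {e f : α} (he : e ∉ X) (hf : f ∉ X) :
    (insert e (I.erase f)) ∩ X = I ∩ X := by
  ext u
  simp only [Finset.mem_inter, Finset.mem_insert, Finset.mem_erase]
  constructor
  · rintro ⟨h | ⟨_, h⟩, hX⟩
    · exact absurd (h ▸ hX) he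
    · exact ⟨h, hX⟩
  · rintro ⟨h, hX⟩
    exact ⟨Or.inr ⟨fun hc => hf (hc ▸ hX), h⟩, hX⟩

theorem level_up {I X : Finset α} {e f : α} (he : e ∈ X) (heI : e ∉ I) (hf : f ∉ X) :
    ((insert e (I.erase f)) ∩ X).card = (I ∩ X).card + 1 := by
  have : (insert e (I.erase f)) ∩ X = insert e (I ∩ X) := by
    ext u
    simp only [Finset.mem_inter, Finset.mem_insert, Finset.mem_erase]
    constructor
    · rintro ⟨h | ⟨_, h⟩, hX⟩
      · exact Or.inl h
      · exact Or.inr ⟨h, hX⟩
    · rintro (h | ⟨h, hX⟩)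
      · exact ⟨Or.inl h, h ▸ he⟩
      · exact ⟨Or.inr ⟨fun hc => hf (hc ▸ hX), h⟩, hX⟩
  rw [this, Finset.card_insert_of_notMem (fun h => heI (Finset.mem_inter.mp h).1)]

theorem level_down {I X : Finset α} {e f : α} (he : e ∉ X) (hfI : f ∈ I) (hf : f ∈ X) :
    ((insert e (I.erase f)) ∩ X).card + 1 = (I ∩ X).card := by
  have : (insert e (I.erase f)) ∩ X = (I ∩ X).erase f := by
    ext u
    simp only [Finset.mem_inter, Finset.mem_insert, Finset.mem_erase]
    constructor
    · rintro ⟨h | ⟨h1, h⟩, hX⟩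
      · exact absurd (h ▸ hX) he
      · exact ⟨h1, h, hX⟩
    · rintro ⟨h1, h, hX⟩
      exact ⟨Or.inr ⟨h1, h⟩, hX⟩
  have hm : f ∈ I ∩ X := Finset.mem_inter.mpr ⟨hfI, hf⟩
  rw [this, Finset.card_erase_of_mem hm]
  have : 0 < (I ∩ X).card := Finset.card_pos.mpr ⟨f, hm⟩
  omega

theorem near_inter {I J : Finset α} (h : Near I J) (X : Finset α) :
    (I ∩ X).card ≤ (J ∩ X).card + 1 := by
  have hs : I ∩ X ⊆ (J ∩ X) ∪ (I \ J) := by
    intro u hu
    rw [Finset.mem_inter] at hu
    by_cases hJ : u ∈ J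
    · exact Finset.mem_union_left _ (Finset.mem_inter.mpr ⟨hJ, hu.2⟩)
    · exact Finset.mem_union_right _ (Finset.mem_sdiff.mpr ⟨hu.1, hJ⟩)
  have := (Finset.card_le_card hs).trans (Finset.card_union_le _ _)
  have h1 := h.1
  omega

theorem card_three {I S T U : Finset α} (hI : I ⊆ S ∪ T ∪ U) (h1 : Disjoint S T)
    (h2 : Disjoint S U) (h3 : Disjoint T U) :
    (I ∩ S).card + (I ∩ T).card + (I ∩ U).card = I.card := by
  have e1 : I = (I ∩ S) ∪ (I ∩ T) ∪ (I ∩ U) := by
    ext u
    simp only [Finset.mem_union, Finset.mem_inter]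
    constructor
    · intro hu
      have := hI hu
      simp only [Finset.mem_union] at this
      rcases this with (h | h) | h
      · exact Or.inl (Or.inl ⟨hu, h⟩)
      · exact Or.inl (Or.inr ⟨hu, h⟩)
      · exact Or.inr ⟨hu, h⟩
    · rintro ((h | h) | h) <;> exact h.1
  have d1 : Disjoint (I ∩ S) (I ∩ T) :=
    Finset.disjoint_of_subset_left Finset.inter_subset_right
      (Finset.disjoint_of_subset_right Finset.inter_subset_right h1)
  have d2 : Disjoint ((I ∩ S) ∪ (I ∩ T)) (I ∩ U) := by
    rw [Finset.disjoint_union_left]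
    exact ⟨Finset.disjoint_of_subset_left Finset.inter_subset_right
      (Finset.disjoint_of_subset_right Finset.inter_subset_right h2),
      Finset.disjoint_of_subset_left Finset.inter_subset_right
      (Finset.disjoint_of_subset_right Finset.inter_subset_right h3)⟩
  conv_rhs => rw [e1]
  rw [Finset.card_union_of_disjoint d2, Finset.card_union_of_disjoint d1]

theorem inter_zero {J A S : Finset α} (hJ : J ⊆ A) (h : Disjoint S A) : (J ∩ S).card = 0 := by
  rw [Finset.card_eq_zero, ← Finset.disjoint_iff_inter_eq_empty]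
  exact Finset.disjoint_of_subset_left hJ h.symm

theorem cr_same (b c : ℕ) (p q : ℕ × ℕ) (h : p.2 = q.2) : cr b c p q = 0 := by
  unfold cr
  rw [if_neg (by omega), if_neg (by omega)]

/-- Moving a state into a reference base `R`, one exchange at a time. -/
theorem move (upe : UpeStmt) (M N : Mat α) (n : ℕ) (R : Finset α) (hR : Setup M N n R)
    (Q : Finset α → Prop) (F : Finset α → ℤ)
    (step : ∀ I e f, CI M N n I → Q I → Up M N R I e f →
      Q (insert e (I.erase f)) ∧ F (insert e (I.erase f)) = F I) :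
    ∀ I, CI M N n I → Q I → ∃ J, CI M N n J ∧ J ⊆ R ∧ Q J ∧ F J = F I := by
  have main : ∀ k, ∀ I, CI M N n I → Q I → (I \ R).card = k →
      ∃ J, CI M N n J ∧ J ⊆ R ∧ Q J ∧ F J = F I := by
    intro k
    induction k with
    | zero =>
      intro I hI hQ hk
      refine ⟨I, hI, ?_, hQ, rfl⟩
      exact Finset.sdiff_eq_empty_iff_subset.mp (Finset.card_eq_zero.mp hk)
    | succ k ih =>
      intro I hI hQ hk
      have hns : ¬ I ⊆ R := by
        intro hc
        rw [Finset.sdiff_eq_empty_iff_subset.mpr hc, Finset.card_empty] at hk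
        omega
      obtain ⟨e, f, hu⟩ := upe α M N n R I hR hI hns
      obtain ⟨hQ', hF⟩ := step I e f hI hQ hu
      have hc : ((insert e (I.erase f)) \ R).card = k := by
        have : (insert e (I.erase f)) \ R = (I \ R).erase f := by
          ext u
          simp only [Finset.mem_sdiff, Finset.mem_insert, Finset.mem_erase]
          constructor
          · rintro ⟨h | ⟨h1, h⟩, hX⟩
            · exact absurd (h ▸ hu.1) hX
            · exact ⟨h1, h, hX⟩
          · rintro ⟨h1, h, hX⟩
            exact ⟨Or.inr ⟨h1, h⟩, hX⟩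
        rw [this, Finset.card_erase_of_mem (Finset.mem_sdiff.mpr ⟨hu.2.2.1, hu.2.2.2.1⟩), hk]
        rfl
      obtain ⟨J, h1, h2, h3, h4⟩ := ih _ (exch_ci hI hu) hQ' hc
      exact ⟨J, h1, h2, h3, h4.trans hF⟩
  intro I hI hQ
  exact main _ I hI hQ rfl

theorem irt (pot : PotStmt) (cro : CroStmt) (upe : UpeStmt) : IrtStmt := by
  intro α _ M N n S T U b a c hS hT hU dST dSU dTU hM hN hIrr habc
  by_contra hcon
  push Not at hcon
  have hno : ∀ I, CI M N n I → ((I ∩ S).card, (I ∩ U).card) ≠ (b, c) := by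
    intro I hI hc
    have h1 : (I ∩ S).card = b := congrArg Prod.fst hc
    have h2 : (I ∩ U).card = c := congrArg Prod.snd hc
    have h3 := card_three (hM I hI.1) dST dSU dTU
    rw [hI.2.2] at h3
    exact hcon I hI h1 (by omega) h2
  set φ : Finset α → Finset α → ℤ := fun A B =>
    cr b c ((A ∩ S).card, (A ∩ U).card) ((B ∩ S).card, (B ∩ U).card) with hφ
  have hhex : ∀ A B, CI M N n A → CI M N n B → Near A B →
      Hex ((A ∩ S).card, (A ∩ U).card) ((B ∩ S).card, (B ∩ U).card) := by
    intro A B hA hB h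
    have h' : Near B A := ⟨h.2, h.1⟩
    have a1 := near_inter h S
    have a2 := near_inter h' S
    have a3 := near_inter h U
    have a4 := near_inter h' U
    have a5 := near_inter h T
    have a6 := near_inter h' T
    have a7 := card_three (hM A hA.1) dST dSU dTU
    have a8 := card_three (hM B hB.1) dST dSU dTU
    rw [hA.2.2] at a7
    rw [hB.2.2] at a8
    unfold Hex
    simp only
    omega
  have hclo : Clo M N n φ := by
    intro A B C D hA hB hC hD h1 h2 h3 h4
    exact cro b c _ _ _ _ (hno A hA) (hno B hB) (hno C hC) (hno D hD) (hhex A B hA hB h1)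
      (hhex B C hB hC h2) (hhex C D hC hD h3) (hhex D A hD hA h4)
  obtain ⟨θ, hθ⟩ := pot α M N n S φ hS hclo hIrr
  have hpot : ∀ I J, CI M N n I → CI M N n J → Near I J → Alw S I J → φ I J = θ J - θ I :=
    fun I J hI hJ h1 h2 => hθ I J hI hJ h1 (Nat.zero_le _) (Nat.zero_le _) h2
  have hST : Setup M N n T := ⟨hS.rM, hS.rN, hT⟩
  have hSU : Setup M N n U := ⟨hS.rM, hS.rN, hU⟩
  have inS : ∀ {x}, x ∈ S → x ∉ T ∧ x ∉ U := fun hx =>
    ⟨Finset.disjoint_left.mp dST hx, Finset.disjoint_left.mp dSU hx⟩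
  have inT : ∀ {x}, x ∈ T → x ∉ S ∧ x ∉ U := fun hx =>
    ⟨Finset.disjoint_right.mp dST hx, Finset.disjoint_left.mp dTU hx⟩
  have inU : ∀ {x}, x ∈ U → x ∉ S ∧ x ∉ T := fun hx =>
    ⟨Finset.disjoint_right.mp dSU hx, Finset.disjoint_right.mp dTU hx⟩
  -- (i)
  have hi := move upe M N n T hST (fun I => I ⊆ S ∪ T) θ (by
    intro I e f hI hQ hu
    have hfS : f ∈ S := by
      rcases Finset.mem_union.mp (hQ hu.2.2.1) with h | h
      · exact h
      · exact absurd h hu.2.2.2.1
    refine ⟨?_, ?_⟩
    · intro u hx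
      rcases Finset.mem_insert.mp hx with h | h
      · rw [h]; exact Finset.mem_union_right _ hu.1
      · exact hQ (Finset.mem_of_mem_erase h)
    · have h1 := hpot I _ hI (exch_ci hI hu) (near_exch' I e f)
        (Or.inl ⟨e, Or.inr ⟨Finset.mem_insert_self _ _, hu.2.1⟩, (inT hu.1).1⟩)
      have h2 : φ I (insert e (I.erase f)) = 0 := by
        refine cr_same b c _ _ ?_
        show (I ∩ U).card = ((insert e (I.erase f)) ∩ U).card
        rw [level_same (inT hu.1).2 (inS hfS).2]
      rw [h2] at h1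
      omega)
  -- (ii)
  have hii := move upe M N n U hSU (fun I => I ⊆ T ∪ U) θ (by
    intro I e f hI hQ hu
    have hfT : f ∈ T := by
      rcases Finset.mem_union.mp (hQ hu.2.2.1) with h | h
      · exact h
      · exact absurd h hu.2.2.2.1
    have hQ' : insert e (I.erase f) ⊆ T ∪ U := by
      intro u hx
      rcases Finset.mem_insert.mp hx with h | h
      · rw [h]; exact Finset.mem_union_right _ hu.1
      · exact hQ (Finset.mem_of_mem_erase h)
    refine ⟨hQ', ?_⟩
    have h1 := hpot I _ hI (exch_ci hI hu) (near_exch' I e f)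
      (Or.inl ⟨e, Or.inr ⟨Finset.mem_insert_self _ _, hu.2.1⟩, (inU hu.1).1⟩)
    have z1 : (I ∩ S).card = 0 := inter_zero hQ (Finset.disjoint_union_right.mpr ⟨dST, dSU⟩)
    have z2 : ((insert e (I.erase f)) ∩ S).card = 0 :=
      inter_zero hQ' (Finset.disjoint_union_right.mpr ⟨dST, dSU⟩)
    have z3 := level_up (I := I) (e := e) (f := f) hu.1 hu.2.1 (inT hfT).2
    have h2 : φ I (insert e (I.erase f)) = 0 := by
      show cr b c ((I ∩ S).card, (I ∩ U).card)
        (((insert e (I.erase f)) ∩ S).card, ((insert e (I.erase f)) ∩ U).card) = 0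
      rw [z1, z2, z3]
      unfold cr
      simp only
      rw [if_neg (by omega), if_neg (by omega)]
    rw [h2] at h1
    omega)
  -- (iii)
  have hiii := move upe M N n S hS (fun I => I ⊆ S ∪ U)
    (fun I => θ I + (if c < (I ∩ U).card then 1 else 0)) (by
    intro I e f hI hQ hu
    have hfU : f ∈ U := by
      rcases Finset.mem_union.mp (hQ hu.2.2.1) with h | h
      · exact absurd h hu.2.2.2.1
      · exact h
    have hQ' : insert e (I.erase f) ⊆ S ∪ U := by
      intro u hx
      rcases Finset.mem_insert.mp hx with h | h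
      · rw [h]; exact Finset.mem_union_left _ hu.1
      · exact hQ (Finset.mem_of_mem_erase h)
    refine ⟨hQ', ?_⟩
    have hI' := exch_ci hI hu
    have h1 := hpot I _ hI hI' (near_exch' I e f)
      (Or.inl ⟨f, Or.inl ⟨hu.2.2.1, by
        rw [Finset.mem_insert, Finset.mem_erase]
        rintro (h | h)
        · exact hu.2.2.2.1 (h ▸ hu.1)
        · exact h.1 rfl⟩, (inU hfU).1⟩)
    have z1 := level_up (I := I) (e := e) (f := f) hu.1 hu.2.1 (inU hfU).1
    have z2 := level_down (I := I) (e := e) (f := f) (inS hu.1).2 hu.2.2.1 hfU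
    have z3 := card_three (hM I hI.1) dST dSU dTU
    have z4 : (I ∩ T).card = 0 :=
      inter_zero hQ (Finset.disjoint_union_right.mpr ⟨dST.symm, dTU⟩)
    have z5 := hno _ hI'
    rw [hI.2.2, z4] at z3
    have h2 : φ I (insert e (I.erase f)) = if (I ∩ U).card = c + 1 then 1 else 0 := by
      show cr b c ((I ∩ S).card, (I ∩ U).card)
        (((insert e (I.erase f)) ∩ S).card, ((insert e (I.erase f)) ∩ U).card) = _
      by_cases hc : (I ∩ U).card = c + 1
      · rw [if_pos hc]
        unfold cr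
        rw [if_pos]
        simp only
        refine ⟨hc, by omega, ?_⟩
        by_contra hb
        refine z5 ?_
        rw [Prod.mk.injEq]
        constructor <;> omega
      · rw [if_neg hc]
        unfold cr
        simp only
        rw [if_neg (by omega), if_neg (by omega)]
    rw [h2] at h1
    show θ (insert e (I.erase f)) + (if c < ((insert e (I.erase f)) ∩ U).card then 1 else 0) =
      θ I + (if c < (I ∩ U).card then 1 else 0)
    split_ifs at h1 ⊢ <;> omega)
  -- start
  have hSne : S.Nonempty := by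
    rw [← Finset.card_pos, hS.cS.2.2]; omega
  obtain ⟨s0, hs0⟩ := hSne
  have hI0 : CI M N n (S.erase s0) := by
    refine ⟨M.sub hS.cS.1 (Finset.erase_subset _ _), N.sub hS.cS.2.1 (Finset.erase_subset _ _), ?_⟩
    rw [Finset.card_erase_of_mem hs0, hS.cS.2.2]; rfl
  obtain ⟨J1, j1, j1T, -, e1⟩ := hi _ hI0
    ((Finset.erase_subset _ _).trans Finset.subset_union_left)
  obtain ⟨J2, j2, j2U, -, e2⟩ := hii J1 j1 (j1T.trans Finset.subset_union_left)
  obtain ⟨J3, j3, j3S, -, e3⟩ := hiii J2 j2 (j2U.trans Finset.subset_union_right)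
  have z0 : (J2 ∩ S).card = 0 := inter_zero j2U dSU
  have z1 : (J2 ∩ U).card = n := by
    rw [Finset.inter_eq_left.mpr j2U, j2.2.2]
  have z2 : (J3 ∩ U).card = 0 := inter_zero j3S dSU.symm
  have z3 := hno J2 j2
  have hcn : c < n := by
    by_contra hc
    refine z3 ?_
    rw [Prod.mk.injEq]
    constructor <;> omega
  -- (iv)
  have e4 : θ J3 = θ (S.erase s0) := by
    have hnear : Near J3 (S.erase s0) := by
      refine ⟨?_, ?_⟩
      · refine Finset.card_le_one.mpr (fun x hx y hy => ?_)
        rw [Finset.mem_sdiff, Finset.mem_erase] at hx hy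
        have h1 : x = s0 := by
          by_contra hc
          exact hx.2 ⟨hc, j3S hx.1⟩
        have h2 : y = s0 := by
          by_contra hc
          exact hy.2 ⟨hc, j3S hy.1⟩
        rw [h1, h2]
      · have hsub : S.erase s0 \ J3 ⊆ S \ J3 := Finset.sdiff_subset_sdiff
          (Finset.erase_subset _ _) (le_refl _)
        have h1 : (S \ J3).card = 1 := by
          have := Finset.card_sdiff_add_card_eq_card j3S
          rw [j3.2.2, hS.cS.2.2] at this
          omega
        exact (Finset.card_le_card hsub).trans (le_of_eq h1)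
    have h1 := hpot J3 _ j3 hI0 hnear (Or.inr ⟨j3S, Finset.erase_subset _ _⟩)
    have h2 : φ J3 (S.erase s0) = 0 := by
      refine cr_same b c _ _ ?_
      show (J3 ∩ U).card = ((S.erase s0) ∩ U).card
      rw [z2, inter_zero (Finset.erase_subset _ _) dSU.symm]
    rw [h2] at h1
    omega
  simp only [z1, z2] at e3
  rw [if_neg (Nat.not_lt_zero _), if_pos hcn] at e3
  omega

end Pool.Agent.R3M.H18
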