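import Pool.Agent.R3M.Stmts

/-!
# R3M, row MTR
-/

set_option autoImplicit false

namespace Pool.Agent.R3M.H18

open Pool.Agent.R3M

/-- A finite set can be listed in the order of a rank function. -/
theorem exists_sorted {β : Type} [DecidableEq β] (T : Finset β) (ρ : β → ℕ) :
    ∃ L : List β, L.Nodup ∧ (∀ p, p ∈ L ↔ p ∈ T) ∧ L.Pairwise (fun p q => ρ p ≤ ρ q) := by
  induction T using Finset.strongInduction with
  | H T ih =>
    by_cases hT : T.Nonempty
    · obtain ⟨p, hp, hmin⟩ := T.exists_min_image ρ hT
      obtain ⟨L, h1, h2, h3⟩ := ih (T.erase p) (Finset.erase_ssubset hp)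
      refine ⟨p :: L, ?_, ?_, ?_⟩
      · refine List.nodup_cons.mpr ⟨?_, h1⟩
        intro h
        exact absurd ((h2 p).mp h) (Finset.notMem_erase p T)
      · intro q
        rw [List.mem_cons, h2 q, Finset.mem_erase]
        constructor
        · rintro (rfl | h)
          · exact hp
          · exact h.2
        · intro h
          by_cases hq : q = p
          · exact Or.inl hq
          · exact Or.inr ⟨hq, h⟩
      · refine List.pairwise_cons.mpr ⟨?_, h3⟩
        intro q hq
        exact hmin q (Finset.mem_of_mem_erase ((h2 q).mp hq))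
    · rw [Finset.not_nonempty_iff_eq_empty] at hT
      subst hT
      exact ⟨[], List.nodup_nil, by simp, List.Pairwise.nil⟩

/-- Triangular exchange for an indexed family with a rank function. -/
theorem tri_rank (tri : TriStmt) {α : Type} [DecidableEq α] (M : Mat α) (P : Finset α)
    {β : Type} [DecidableEq β] (T : Finset β) (A R : β → α) (ρ : β → ℕ)
    (hrk : M.Rk P.card) (hP : M.Ind P)
    (hA : ∀ p ∈ T, A p ∉ P) (hR : ∀ p ∈ T, R p ∈ P)
    (hAi : ∀ p ∈ T, ∀ q ∈ T, A p = A q → p = q) (hRi : ∀ p ∈ T, ∀ q ∈ T, R p = R q → p = q)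
    (harc : ∀ p ∈ T, Arc M P (R p) (A p))
    (hno : ∀ p ∈ T, ∀ q ∈ T, p ≠ q → ρ p ≤ ρ q → ¬ Arc M P (R p) (A q)) :
    M.Ind ((P \ T.image R) ∪ T.image A) := by
  obtain ⟨L, h1, h2, h3⟩ := exists_sorted T ρ
  have key := tri α M P (L.map (fun p => (A p, R p))) hrk hP
    (by
      intro q hq
      obtain ⟨p, hp, rfl⟩ := List.mem_map.mp hq
      exact hA p ((h2 p).mp hp))
    (by
      intro q hq
      obtain ⟨p, hp, rfl⟩ := List.mem_map.mp hq
      exact hR p ((h2 p).mp hp))
    (by
      rw [List.map_map]
      refine (List.nodup_map_iff_inj_on h1).mpr ?_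
      intro x hx y hy hxy
      exact hAi x ((h2 x).mp hx) y ((h2 y).mp hy) hxy)
    (by
      rw [List.map_map]
      refine (List.nodup_map_iff_inj_on h1).mpr ?_
      intro x hx y hy hxy
      exact hRi x ((h2 x).mp hx) y ((h2 y).mp hy) hxy)
    (by
      intro q hq
      obtain ⟨p, hp, rfl⟩ := List.mem_map.mp hq
      exact harc p ((h2 p).mp hp))
    (by
      rw [List.pairwise_map]
      have h4 : L.Pairwise (fun p q => p ≠ q) := h1
      refine (h3.and h4).imp_of_mem ?_
      intro p q hp hq hpq
      exact hno p ((h2 p).mp hp) q ((h2 q).mp hq) hpq.2 hpq.1)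
  have e1 : ((L.map (fun p => (A p, R p))).map Prod.snd).toFinset = T.image R := by
    ext u
    simp only [List.map_map, List.mem_toFinset, List.mem_map, Finset.mem_image, Function.comp_apply]
    constructor
    · rintro ⟨p, hp, hu⟩
      exact ⟨p, (h2 p).mp hp, hu⟩
    · rintro ⟨p, hp, hu⟩
      exact ⟨p, (h2 p).mpr hp, hu⟩
  have e2 : ((L.map (fun p => (A p, R p))).map Prod.fst).toFinset = T.image A := by
    ext u
    simp only [List.map_map, List.mem_toFinset, List.mem_map, Finset.mem_image, Function.comp_apply]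
    constructor
    · rintro ⟨p, hp, hu⟩
      exact ⟨p, (h2 p).mp hp, hu⟩
    · rintro ⟨p, hp, hu⟩
      exact ⟨p, (h2 p).mpr hp, hu⟩
  rw [e1, e2] at key
  exact key

/-- Index set: kind `0` for `d, g`, kind `1` for `z, f`, kind `2` for `e, h`. -/
theorem mtr (tri : TriStmt) : MtrStmt := by
  intro α _ M P a l b g d f z h e i j X Y hrk hP ha hl hb H gP fP hhP dP zP eP ginj ga f0 dinj
    finj zinj hinj einj fg fh gh de zd ze hij hjl hX hY hx0 hyl
  classical
  -- the special case
  obtain ⟨sp, hsp⟩ : ∃ sp : Bool, sp = true ↔ z (l - 1) = e (b - 1) := by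
    by_cases hc : z (l - 1) = e (b - 1)
    · exact ⟨true, by simp [hc]⟩
    · exact ⟨false, by simp [hc]⟩
  set T : Finset (ℕ × ℕ) := (X.image (fun x => ((0 : ℕ), x))) ∪
    ((Finset.Ico i j).image (fun y => ((1 : ℕ), y))) ∪ (Y.image (fun y => ((2 : ℕ), y))) with hTdef
  set A : ℕ × ℕ → α := fun p => if p.1 = 0 then d p.2 else if p.1 = 1 then z p.2 else e p.2
    with hAdef
  set R : ℕ × ℕ → α := fun p => if p.1 = 0 then g (p.2 + 1) else if p.1 = 1 then f p.2 else h p.2
    with hRdef
  set ρ : ℕ × ℕ → ℕ := fun p => if p.1 = 0 then 1 else if p.1 = 1 then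
      (if p.2 = 0 then 0 else if (sp = true ∧ p.2 = l - 1) then l + 4 else 2 + p.2) else l + 3
    with hρdef
  have memT : ∀ p ∈ T, (p.1 = 0 ∧ p.2 ∈ X ∧ p.2 < a) ∨ (p.1 = 1 ∧ i ≤ p.2 ∧ p.2 < j) ∨
      (p.1 = 2 ∧ p.2 ∈ Y ∧ p.2 < b) := by
    intro p hp
    rw [hTdef, Finset.mem_union, Finset.mem_union, Finset.mem_image, Finset.mem_image,
      Finset.mem_image] at hp
    rcases hp with (⟨x, hx, rfl⟩ | ⟨x, hx, rfl⟩) | ⟨x, hx, rfl⟩
    · exact Or.inl ⟨rfl, hx, Finset.mem_range.mp (hX hx)⟩
    · exact Or.inr (Or.inl ⟨rfl, (Finset.mem_Ico.mp hx).1, (Finset.mem_Ico.mp hx).2⟩)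
    · exact Or.inr (Or.inr ⟨rfl, hx, Finset.mem_range.mp (hY hx)⟩)
  have gf0 : g ((a - 1) + 1) = f 0 := by
    rw [Nat.sub_add_cancel ha, ga, f0]
  have key := tri_rank tri M P T A R ρ hrk hP ?_ ?_ ?_ ?_ ?_ ?_
  · have e1 : T.image R = X.image (fun x => g (x + 1)) ∪ (Finset.Ico i j).image f ∪ Y.image h := by
      rw [hTdef, Finset.image_union, Finset.image_union, Finset.image_image, Finset.image_image,
        Finset.image_image]
      rfl
    have e2 : T.image A = X.image d ∪ (Finset.Ico i j).image z ∪ Y.image e := by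
      rw [hTdef, Finset.image_union, Finset.image_union, Finset.image_image, Finset.image_image,
        Finset.image_image]
      rfl
    rw [e1, e2] at key
    exact key
  · rintro ⟨k, x⟩ hp
    rcases memT _ hp with ⟨hk, hx, hxa⟩ | ⟨hk, hx1, hx2⟩ | ⟨hk, hx, hxb⟩ <;>
      simp only at hk <;> subst hk
    · exact dP x hxa
    · exact zP x (by simp only at hx2; omega)
    · exact eP x hxb
  · rintro ⟨k, x⟩ hp
    rcases memT _ hp with ⟨hk, hx, hxa⟩ | ⟨hk, hx1, hx2⟩ | ⟨hk, hx, hxb⟩ <;>
      simp only at hk <;> subst hk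
    · exact gP (x + 1) (by simp only at hxa; omega)
    · exact fP x (by simp only at hx2; omega)
    · exact hhP x hxb
  · -- injectivity of A
    have main : ∀ k k' x x', (k, x) ∈ T → (k', x') ∈ T → k ≤ k' → A (k, x) = A (k', x') →
        (k, x) = (k', x') := by
      intro k k' x x' hp hq hkk hA
      rcases memT _ hp with ⟨hk, hx, hxa⟩ | ⟨hk, hx1, hx2⟩ | ⟨hk, hx, hxb⟩ <;>
      rcases memT _ hq with ⟨hk', hx', hxa'⟩ | ⟨hk', hx1', hx2'⟩ | ⟨hk', hx', hxb'⟩ <;>
      simp only at hk hk' <;> subst hk <;> subst hk'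
      · rw [dinj x x' hxa hxa' hA]
      · exfalso
        have hz := zd x x' hxa (by simp only at hx2'; omega) hA.symm
        have : i = 0 := by simp only at hx1'; omega
        refine hx0 this (by simp only at hx2'; omega) ?_
        rw [← hz.2]; exact hx
      · exact absurd hA (de x x' hxa hxb')
      · omega
      · rw [zinj x x' (by simp only at hx2; omega) (by simp only at hx2'; omega) hA]
      · exfalso
        have hz := ze x' x hxb' (by simp only at hx2; omega) hA
        refine hyl (by simp only at hx2; omega) (by simp only at hx1 hx2; omega) ?_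
        rw [← hz.2]; exact hx'
      · omega
      · omega
      · rw [einj x x' hxb hxb' hA]
    rintro ⟨k, x⟩ hp ⟨k', x'⟩ hq hA
    rcases le_total k k' with hkk | hkk
    · exact main k k' x x' hp hq hkk hA
    · exact (main k' k x' x hq hp hkk hA.symm).symm
  · -- injectivity of R
    have main : ∀ k k' x x', (k, x) ∈ T → (k', x') ∈ T → k ≤ k' → R (k, x) = R (k', x') →
        (k, x) = (k', x') := by
      intro k k' x x' hp hq hkk hA
      rcases memT _ hp with ⟨hk, hx, hxa⟩ | ⟨hk, hx1, hx2⟩ | ⟨hk, hx, hxb⟩ <;>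
      rcases memT _ hq with ⟨hk', hx', hxa'⟩ | ⟨hk', hx1', hx2'⟩ | ⟨hk', hx', hxb'⟩ <;>
      simp only at hk hk' <;> subst hk <;> subst hk'
      · rw [ginj x x' hxa hxa' hA]
      · exfalso
        have hA' : g (x + 1) = f x' := hA
        by_cases hx0' : x' = 0
        · subst hx0'
          rw [← gf0] at hA'
          have hxx := ginj x (a - 1) hxa (by omega) hA'
          have : i = 0 := by simp only at hx1'; omega
          refine hx0 this (by simp only at hx2'; omega) ?_
          rw [← hxx]; exact hx
        · exact fg (x + 1) x' (by simp only at hxa; omega) (by omega)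
            (by simp only at hx2'; omega) hA'.symm
      · exact absurd hA (gh (x + 1) x' (by simp only at hxa; omega) hxb')
      · omega
      · rw [finj x x' (by simp only at hx2; omega) (by simp only at hx2'; omega) hA]
      · exact absurd hA (fh x' x hxb' (by simp only at hx2; omega))
      · omega
      · omega
      · rw [hinj x x' hxb hxb' hA]
    rintro ⟨k, x⟩ hp ⟨k', x'⟩ hq hA
    rcases le_total k k' with hkk | hkk
    · exact main k k' x x' hp hq hkk hA
    · exact (main k' k x' x hq hp hkk hA.symm).symm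
  · rintro ⟨k, x⟩ hp
    rcases memT _ hp with ⟨hk, hx, hxa⟩ | ⟨hk, hx1, hx2⟩ | ⟨hk, hx, hxb⟩ <;>
      simp only at hk <;> subst hk
    · exact H.a1 x hxa
    · exact H.a2 x (by simp only at hx2; omega)
    · exact H.a3 x hxb
  · rintro ⟨k, x⟩ hp ⟨k', x'⟩ hq hne hle
    have hne' : k = k' → x ≠ x' := fun h1 h2 => hne (by rw [h1, h2])
    rcases memT _ hp with ⟨hk, hx, hxa⟩ | ⟨hk, hx1, hx2⟩ | ⟨hk, hx, hxb⟩ <;>
    rcases memT _ hq with ⟨hk', hx', hxa'⟩ | ⟨hk', hx1', hx2'⟩ | ⟨hk', hx', hxb'⟩ <;>
    simp only at hk hk' <;> subst hk <;> subst hk'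
    · exact H.c1 x x' hxa hxa' (hne' rfl)
    · -- d before z
      have hr : ρ (0, x) = 1 := rfl
      have hx'0 : x' ≠ 0 := by
        intro h0
        subst h0
        have hr' : ρ (1, 0) = 0 := rfl
        omega
      exact H.c2 (x + 1) x' (by simp only at hxa; omega) (by omega) (by simp only at hx2'; omega)
    · exact H.c3 (x + 1) x' (by simp only at hxa; omega) hxb'
    · -- z before d
      have hr : ρ (0, x') = 1 := rfl
      have hr' : ρ (1, x) = if x = 0 then 0 else if (sp = true ∧ x = l - 1) then l + 4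
        else 2 + x := rfl
      have hx00 : x = 0 := by
        by_contra hc
        rw [if_neg hc] at hr'
        split_ifs at hr' <;> omega
      subst hx00
      have : i = 0 := by simp only at hx1; omega
      have hna : a - 1 ∉ X := hx0 this (by simp only at hx2; omega)
      have := H.c1 (a - 1) x' (by omega) hxa' (fun hc => hna (by rw [hc]; exact hx'))
      rw [gf0] at this
      exact this
    · -- z before z
      have hr : ρ (1, x) = if x = 0 then 0 else if (sp = true ∧ x = l - 1) then l + 4
        else 2 + x := rfl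
      have hr' : ρ (1, x') = if x' = 0 then 0 else if (sp = true ∧ x' = l - 1) then l + 4
        else 2 + x' := rfl
      have hxx := hne' rfl
      have hlt : x < x' := by
        simp only at hx2 hx2'
        by_contra hc
        rw [hr, hr'] at hle
        split_ifs at hle <;> omega
      exact H.c4 x x' hlt (by simp only at hx2'; omega)
    · -- z before e
      have hr : ρ (1, x) = if x = 0 then 0 else if (sp = true ∧ x = l - 1) then l + 4
        else 2 + x := rfl
      have hr' : ρ (2, x') = l + 3 := rfl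
      by_cases h1 : x + 1 < l
      · exact H.c5 x x' h1 hxb'
      · have hxl : x = l - 1 := by simp only at hx2; omega
        by_cases hx00 : x = 0
        · have := H.c3 0 x' (Nat.zero_le _) hxb'
          rw [← f0] at this
          show ¬ Arc M P (f x) (e x')
          rw [hx00]; exact this
        · rw [hr, hr', if_neg hx00] at hle
          have hs : ¬ (sp = true) := by
            intro hs
            rw [if_pos ⟨hs, hxl⟩] at hle
            omega
          rcases H.c6 with h6 | h6
          · exact absurd (hsp.mpr h6) hs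
          · show ¬ Arc M P (f x) (e x')
            rw [hxl]; exact h6 x' hxb'
    · exfalso
      have hr : ρ (2, x) = l + 3 := rfl
      have hr' : ρ (0, x') = 1 := rfl
      omega
    · -- e before z
      have hr : ρ (2, x) = l + 3 := rfl
      have hr' : ρ (1, x') = if x' = 0 then 0 else if (sp = true ∧ x' = l - 1) then l + 4
        else 2 + x' := rfl
      have hs : sp = true ∧ x' = l - 1 := by
        by_contra hc
        rw [if_neg hc] at hr'
        simp only at hx2'
        split_ifs at hr' <;> omega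
      have hz : z x' = e (b - 1) := by rw [hs.2]; exact hsp.mp hs.1
      have hnb : b - 1 ∉ Y := hyl (by simp only at hx2'; omega) (by simp only at hx1' hx2'; omega)
      show ¬ Arc M P (h x) (z x')
      rw [hz]
      exact H.c7 x (b - 1) hxb (by omega) (fun hc => hnb (by rw [← hc]; exact hx))
    · exact H.c7 x x' hxb hxb' (hne' rfl)

end Pool.Agent.R3M.H18
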