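import Pool.Agent.R3M.Kit

/-!
# R3M, row RED: a pair which is not irreducible splits
-/

set_option autoImplicit false

namespace Pool.Agent.R3M.H18

open Pool.Agent.R3M

variable {α : Type} [DecidableEq α]

/-- Gluing an independent set of the restriction to `A` and one of the contraction by `V`. -/
theorem glue (M : Mat α) {A V I J : Finset α}
    (hA : ∀ I, M.Ind I → I ⊆ A → I.card ≤ V.card) (hVA : V ⊆ A)
    (hI : M.Ind I) (hIA : I ⊆ A) (hJV : Disjoint J V) (hJ : M.Ind (J ∪ V)) :
    M.Ind (I ∪ J) := by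
  have c1 : (J ∪ V).card = J.card + V.card := Finset.card_union_of_disjoint hJV
  have c2 := hA I hI hIA
  obtain ⟨K, k1, k2, k3, k4⟩ := Kit.aug_to M hI hJ (by omega)
  have c3 : (I ∪ K).card = I.card + K.card := Finset.card_union_of_disjoint k2.symm
  have h1 : M.Ind (I ∪ (K ∩ V)) := M.sub k3 (Finset.union_subset_union_right Finset.inter_subset_left)
  have h2 : I ∪ (K ∩ V) ⊆ A := Finset.union_subset hIA (Finset.inter_subset_right.trans hVA)
  have c4 := hA _ h1 h2
  have c5 : (I ∪ (K ∩ V)).card = I.card + (K ∩ V).card :=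
    Finset.card_union_of_disjoint (Finset.disjoint_of_subset_right Finset.inter_subset_left k2.symm)
  have c6 : (K ∩ V).card + (K \ V).card = K.card := Finset.card_inter_add_card_sdiff K V
  have h3 : K \ V ⊆ J := by
    intro u hu
    rw [Finset.mem_sdiff] at hu
    rcases Finset.mem_union.mp (k1 hu.1) with h | h
    · exact h
    · exact absurd h hu.2
  have h4 : K \ V = J := Finset.eq_of_subset_of_card_le h3 (by omega)
  refine M.sub k3 (Finset.union_subset_union_right ?_)
  rw [← h4]
  exact Finset.sdiff_subset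

/-- Filling up `V` by the part of a base outside `A`. -/
theorem fill (M : Mat α) {A B V S : Finset α} {q : ℕ}
    (hA : ∀ I, M.Ind I → I ⊆ A → I.card ≤ V.card) (hVA : V ⊆ A) (hV : M.Ind V)
    (hS : M.Ind S) (hSc : S.card = V.card + q) (hSAB : S ⊆ A ∪ B)
    (hq : (S ∩ B).card = q) : M.Ind ((S ∩ B) ∪ V) := by
  obtain ⟨K, k1, k2, k3, k4⟩ := Kit.aug_to M hV hS (by omega)
  have c3 : (V ∪ K).card = V.card + K.card := Finset.card_union_of_disjoint k2.symm
  have h1 : M.Ind (V ∪ (K ∩ A)) :=
    M.sub k3 (Finset.union_subset_union_right Finset.inter_subset_left)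
  have h2 : V ∪ (K ∩ A) ⊆ A := Finset.union_subset hVA Finset.inter_subset_right
  have c4 := hA _ h1 h2
  have c5 : (V ∪ (K ∩ A)).card = V.card + (K ∩ A).card :=
    Finset.card_union_of_disjoint (Finset.disjoint_of_subset_right Finset.inter_subset_left k2.symm)
  have h0 : K ∩ A = ∅ := Finset.card_eq_zero.mp (by omega)
  have h3 : K ⊆ S ∩ B := by
    intro u hu
    rw [Finset.mem_inter]
    refine ⟨k1 hu, ?_⟩
    rcases Finset.mem_union.mp (hSAB (k1 hu)) with h | h
    · have : u ∈ K ∩ A := Finset.mem_inter.mpr ⟨hu, h⟩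
      rw [h0] at this
      exact absurd this (Finset.notMem_empty u)
    · exact h
  have h4 : K = S ∩ B := Finset.eq_of_subset_of_card_le h3 (by omega)
  rw [← h4, Finset.union_comm]
  exact k3

theorem red (rdb : RdbStmt) : RedStmt := by
  intro α _ M N n S T U hS hT hU hM hN hirr
  obtain ⟨A, B, V, W, hAB, hVA, hWB, hVne, hWne, hVW, hP, hA, hB⟩ :=
    rdb α M N n S T U hS hM hN hirr
  have cVW : V.card + W.card = n + 1 := by
    rw [← Finset.card_union_of_disjoint hVW]; exact hP.2.2
  have hVM : M.Ind V := M.sub hP.1 Finset.subset_union_left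
  have hWN : N.Ind W := N.sub hP.2.1 Finset.subset_union_right
  -- counting
  have count : ∀ X, CI M N (n + 1) X → X ⊆ A ∪ B →
      (X ∩ A).card = V.card ∧ (X ∩ B).card = W.card ∧ X ∩ A ∩ B = ∅ := by
    intro X hX hXAB
    have a1 := hA (X ∩ A) (M.sub hX.1 Finset.inter_subset_left) Finset.inter_subset_right
    have a2 := hB (X ∩ B) (N.sub hX.2.1 Finset.inter_subset_left) Finset.inter_subset_right
    have a3 := Finset.card_union_add_card_inter (X ∩ A) (X ∩ B)
    have a4 : (X ∩ A) ∪ (X ∩ B) = X := by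
      rw [← Finset.inter_union_distrib_left]
      exact Finset.inter_eq_left.mpr hXAB
    rw [a4, hX.2.2] at a3
    have a5 : ((X ∩ A) ∩ (X ∩ B)).card = 0 := by omega
    refine ⟨by omega, by omega, ?_⟩
    rw [Finset.card_eq_zero] at a5
    rw [← a5]
    ext u
    simp only [Finset.mem_inter]
    tauto
  have hSAB : S ⊆ A ∪ B := by
    rw [hAB]; exact Finset.subset_union_left.trans Finset.subset_union_left
  have hTAB : T ⊆ A ∪ B := by
    rw [hAB]; exact Finset.subset_union_right.trans Finset.subset_union_left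
  have hUAB : U ⊆ A ∪ B := by
    rw [hAB]; exact Finset.subset_union_right
  obtain ⟨s1, s2, s3⟩ := count S hS.cS hSAB
  obtain ⟨t1, t2, t3⟩ := count T hT hTAB
  obtain ⟨u1, u2, u3⟩ := count U hU hUAB
  have hdis : Disjoint A B := by
    rw [Finset.disjoint_left]
    intro x hxA hxB
    have hx : x ∈ S ∪ T ∪ U := by rw [← hAB]; exact Finset.mem_union_left _ hxA
    rw [Finset.mem_union, Finset.mem_union] at hx
    rcases hx with (h | h) | h
    · have : x ∈ S ∩ A ∩ B := Finset.mem_inter.mpr ⟨Finset.mem_inter.mpr ⟨h, hxA⟩, hxB⟩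
      rw [s3] at this
      exact absurd this (Finset.notMem_empty x)
    · have : x ∈ T ∩ A ∩ B := Finset.mem_inter.mpr ⟨Finset.mem_inter.mpr ⟨h, hxA⟩, hxB⟩
      rw [t3] at this
      exact absurd this (Finset.notMem_empty x)
    · have : x ∈ U ∩ A ∩ B := Finset.mem_inter.mpr ⟨Finset.mem_inter.mpr ⟨h, hxA⟩, hxB⟩
      rw [u3] at this
      exact absurd this (Finset.notMem_empty x)
  have hBA : ∀ {X : Finset α}, X ⊆ A ∪ B → X ⊆ B ∪ A := fun h => by
    rw [Finset.union_comm]; exact h
  -- the four matroids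
  refine ⟨A, B, Kit.restr M A, Kit.restr (Kit.contr N W hWN) A, Kit.restr (Kit.contr M V hVM) B,
    Kit.restr N B, V.card, W.card, cVW, Finset.card_pos.mpr hVne, Finset.card_pos.mpr hWne, hdis,
    ?_, ?_, ?_, ?_⟩
  · have part : ∀ X, CI M N (n + 1) X → X ⊆ A ∪ B → (X ∩ A).card = V.card →
        CI (Kit.restr M A) (Kit.restr (Kit.contr N W hWN) A) V.card (X ∩ A) := by
      intro X hX hXAB hXA
      refine ⟨⟨M.sub hX.1 Finset.inter_subset_left, Finset.inter_subset_right⟩,
        ⟨⟨?_, ?_⟩, Finset.inter_subset_right⟩, hXA⟩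
      · exact Finset.disjoint_of_subset_left Finset.inter_subset_right
          (Finset.disjoint_of_subset_right hWB hdis)
      · exact fill N hB hWB hWN hX.2.1 (by rw [hX.2.2]; omega) (hBA hXAB) hXA
    refine ⟨?_, ?_, fun I h => h.2, fun I h => h.2, part S hS.cS hSAB s1, part T hT hTAB t1,
      part U hU hUAB u1⟩
    · intro I hI
      exact hA I hI.1 hI.2
    · intro I hI
      have h1 := hS.rN _ hI.1.2
      rw [Finset.card_union_of_disjoint hI.1.1] at h1
      omega
  · have part : ∀ X, CI M N (n + 1) X → X ⊆ A ∪ B → (X ∩ B).card = W.card →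
        CI (Kit.restr (Kit.contr M V hVM) B) (Kit.restr N B) W.card (X ∩ B) := by
      intro X hX hXAB hXB
      refine ⟨⟨⟨?_, ?_⟩, Finset.inter_subset_right⟩,
        ⟨N.sub hX.2.1 Finset.inter_subset_left, Finset.inter_subset_right⟩, hXB⟩
      · exact Finset.disjoint_of_subset_left Finset.inter_subset_right
          (Finset.disjoint_of_subset_right hVA hdis.symm)
      · exact fill M hA hVA hVM hX.1 (by rw [hX.2.2]; omega) hXAB hXB
    refine ⟨?_, ?_, fun I h => h.2, fun I h => h.2, part S hS.cS hSAB s2, part T hT hTAB t2,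
      part U hU hUAB u2⟩
    · intro I hI
      have h1 := hS.rM _ hI.1.2
      rw [Finset.card_union_of_disjoint hI.1.1] at h1
      omega
    · intro I hI
      exact hB I hI.1 hI.2
  · intro I J hI hJ
    exact glue M hA hVA hI.1 hI.2 hJ.1.1 hJ.1.2
  · intro I J hI hJ
    have := glue N hB hWB hJ.1 hJ.2 hI.1.1 hI.1.2
    rw [Finset.union_comm]
    exact this

end Pool.Agent.R3M.H18
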